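import Pool.Agent.Helper86.ZDomDominating

set_option autoImplicit false

namespace Pool.Agent.Results.MP_f6aff2_lc.DominationReduction

open Pool.Agent.Helper86.ZDom

/-- For every finite simple graph `H` on `n` vertices and every set `P` of integers containing
`0` and `1`, the graph `redGraph H (2n+1)` has `P`-domination number `γ(H) + 2n`, where `γ(H)` is
the domination number of `H`. -/
theorem result {V : Type*} [Fintype V] (H : SimpleGraph V) (P : Set ℝ) (h01 : {0, 1} ⊆ P)
    (hP : P ⊆ Set.range ((↑) : ℤ → ℝ)) :
    gammaP P (redGraph H (2 * Fintype.card V + 1))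
      = gammaP {0, 1} H + ((2 * Fintype.card V : ℕ) : EReal) :=
  gamma_red H P h01 hP

end Pool.Agent.Results.MP_f6aff2_lc.DominationReduction
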