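import Pool.Agent.Helper86.ZDomHard

set_option autoImplicit false

namespace Pool.Agent.Results.MP_f6aff2_lc.NPHardness

open Pool.Agent.Helper86.ZDom Pool.Agent.Helper86.NP

/-- For every set `P` of integers containing `0` and `1`, in particular for `P = ℤ`, deciding
whether `γ_P(G) ≤ k` for a given graph `G` and integer `k` is NP-hard. -/
theorem result (P : Set ℝ) (h01 : {0, 1} ⊆ P) (hP : P ⊆ Set.range ((↑) : ℤ → ℝ)) :
    NPHard instEncoding (DomProblem P) :=
  domProblem_npHard P h01 hP

end Pool.Agent.Results.MP_f6aff2_lc.NPHardness
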